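import Pool.Agent.TFJ.Stmts

/-!
# TFJ.CRN: coprime factors
-/

set_option autoImplicit false

namespace Pool.Agent.TFJ.H50

open Pool.Agent.TFJ

theorem divBy_mul {S : Type} [Ring S] (z : S) (a b : ℕ) (hab : Nat.Coprime a b)
    (ha : DivBy S a z) (hb : DivBy S b z) : DivBy S (a * b) z := by
  obtain ⟨s, hs⟩ := ha
  obtain ⟨t, ht⟩ := hb
  have hbez : (1 : ℤ) = a * Nat.gcdA a b + b * Nat.gcdB a b := by
    have h := Nat.gcd_eq_gcd_ab a b
    rw [Nat.Coprime.gcd_eq_one hab] at h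
    exact_mod_cast h
  refine ⟨(Nat.gcdA a b) • t + (Nat.gcdB a b) • s, ?_⟩
  have hz : z = ((a : ℤ) * Nat.gcdA a b + b * Nat.gcdB a b) • z := by
    rw [← hbez, one_smul]
  have key : z - (a * b) • ((Nat.gcdA a b) • t + (Nat.gcdB a b) • s)
      = ((Nat.gcdA a b) * a) • (z - b • t) + ((Nat.gcdB a b) * b) • (z - a • s) := by
    rw [← natCast_zsmul _ (a * b), ← natCast_zsmul t b, ← natCast_zsmul s a, Nat.cast_mul]
    nth_rewrite 1 [hz]
    module
  rw [key]
  exact AddSubgroup.add_mem _ (AddSubgroup.zsmul_mem _ ht _) (AddSubgroup.zsmul_mem _ hs _)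

/-- **CRN** -/
theorem crn : CrnStmt := by
  intro S _ z h N
  induction N using Nat.recOnPosPrimePosCoprime with
  | prime_pow p n hp _ => exact fun _ => h p n hp
  | zero => intro h0; omega
  | one => exact fun _ => ⟨z, by simp⟩
  | coprime a b ha hb hab iha ihb =>
    exact fun _ => divBy_mul z a b hab (iha ha.le) (ihb hb.le)

end Pool.Agent.TFJ.H50
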